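import Pool.Agent.Helper8.TB.St

/-!
# Project TB, module Dat: existence of the data

`w s = max 0 (|s| - τ)`, `S t = ∫ s in 0..t, w s`, `E t = η sin (S t)`, `q = (1 + E) ^ (1/m)`.
-/

set_option autoImplicit false

namespace Pool.Agent.Helper22.TB

open Pool.Helper8.TB MeasureTheory

/-- The even weight, zero on `[-τ, τ]`. -/
noncomputable def wD (τ s : ℝ) : ℝ := max 0 (|s| - τ)

/-- Its odd antiderivative. -/
noncomputable def SD (τ t : ℝ) : ℝ := ∫ s in (0 : ℝ)..t, wD τ s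

/-- The base of the power. -/
noncomputable def yD (τ η t : ℝ) : ℝ := 1 + η * Real.sin (SD τ t)

/-- The radius function. -/
noncomputable def qD (m : ℕ) (τ η t : ℝ) : ℝ := yD τ η t ^ ((m : ℝ)⁻¹)

/-- Its derivative. -/
noncomputable def q1D (m : ℕ) (τ η t : ℝ) : ℝ :=
  η * (Real.cos (SD τ t) * wD τ t) * (m : ℝ)⁻¹ * yD τ η t ^ ((m : ℝ)⁻¹ - 1)

/-- The function `- q1 t / t`. -/
noncomputable def rD (m : ℕ) (τ η t : ℝ) : ℝ := -q1D m τ η t * (t / max (t ^ 2) (τ ^ 2))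

/-- The antiderivative of `r`. -/
noncomputable def pD (m : ℕ) (τ η t : ℝ) : ℝ := ∫ s in (0 : ℝ)..t, rD m τ η s

private theorem w_cont (τ : ℝ) : Continuous (wD τ) :=
  continuous_const.max (continuous_abs.sub continuous_const)

private theorem w_nonneg (τ s : ℝ) : 0 ≤ wD τ s := le_max_left _ _

private theorem w_flat (τ s : ℝ) (h : |s| ≤ τ) : wD τ s = 0 := max_eq_left (by linarith)

private theorem w_le (τ s : ℝ) (hτ : 0 < τ) (h : |s| ≤ 1) : wD τ s ≤ 1 :=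
  max_le zero_le_one (by linarith)

private theorem S_deriv (τ t : ℝ) : HasDerivAt (SD τ) (wD τ t) t :=
  ((w_cont τ).integral_hasStrictDerivAt 0 t).hasDerivAt

private theorem S_cont (τ : ℝ) : Continuous (SD τ) :=
  continuous_iff_continuousAt.2 fun t => (S_deriv τ t).continuousAt

private theorem S_odd (τ t : ℝ) : SD τ (-t) = -SD τ t := by
  have h := intervalIntegral.integral_comp_neg (a := 0) (b := t) (wD τ)
  have h1 : (fun x => wD τ (-x)) = wD τ := by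
    funext x
    simp [wD]
  rw [neg_zero] at h
  have h2 : (∫ x in (0 : ℝ)..t, wD τ (-x)) = ∫ x in (0 : ℝ)..t, wD τ x := by
    rw [h1]
  rw [h2] at h
  rw [SD, SD, h, intervalIntegral.integral_symm]

private theorem abs_le_of_mem (t x : ℝ) (h : x ∈ Set.uIcc 0 t) : |x| ≤ |t| := by
  have := Set.abs_sub_left_of_mem_uIcc h
  simpa using this

private theorem S_flat (τ t : ℝ) (h : |t| ≤ τ) : SD τ t = 0 := by
  rw [SD]
  have h1 : (∫ s in (0 : ℝ)..t, wD τ s) = ∫ s in (0 : ℝ)..t, (0 : ℝ) :=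
    intervalIntegral.integral_congr fun x hx => w_flat τ x ((abs_le_of_mem t x hx).trans h)
  rw [h1, intervalIntegral.integral_zero]

private theorem S_one_pos (τ : ℝ) (hτ : 0 < τ) (hτ1 : τ < 1) : 0 < SD τ 1 := by
  refine intervalIntegral.integral_pos zero_lt_one (w_cont τ).continuousOn
    (fun x _ => w_nonneg τ x) ⟨1, ⟨zero_le_one, le_refl _⟩, ?_⟩
  rw [wD, abs_one]
  exact lt_max_of_lt_right (by linarith)

private theorem S_one_le (τ : ℝ) (hτ : 0 < τ) : SD τ 1 ≤ 1 := by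
  have h := intervalIntegral.norm_integral_le_of_norm_le_const (a := 0) (b := 1) (C := 1)
    (f := wD τ) (fun x hx => ?_)
  · rw [sub_zero, abs_one, mul_one] at h
    exact (le_abs_self _).trans h
  · rw [Set.uIoc_of_le zero_le_one] at hx
    rw [Real.norm_eq_abs, abs_of_nonneg (w_nonneg τ x)]
    exact w_le τ x hτ (by rw [abs_of_pos hx.1]; exact hx.2)

private theorem y_bd (τ η t : ℝ) (hη : 0 ≤ η) : 1 - η ≤ yD τ η t ∧ yD τ η t ≤ 1 + η := by
  have h1 := Real.neg_one_le_sin (SD τ t)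
  have h2 := Real.sin_le_one (SD τ t)
  unfold yD
  constructor <;> nlinarith

private theorem y_pos (τ η t : ℝ) (hη : 0 ≤ η) (hη1 : η ≤ 1 / 2) : 0 < yD τ η t := by
  have := (y_bd τ η t hη).1
  linarith

private theorem y_deriv (τ η t : ℝ) :
    HasDerivAt (yD τ η) (η * (Real.cos (SD τ t) * wD τ t)) t :=
  (((S_deriv τ t).sin).const_mul η).const_add 1

private theorem y_cont (τ η : ℝ) : Continuous (yD τ η) :=
  continuous_iff_continuousAt.2 fun t => (y_deriv τ η t).continuousAt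

private theorem y_flat (τ η t : ℝ) (h : |t| ≤ τ) : yD τ η t = 1 := by
  rw [yD, S_flat τ t h, Real.sin_zero, mul_zero, add_zero]

private theorem y_odd (τ η t : ℝ) : yD τ η (-t) = 2 - yD τ η t := by
  rw [yD, yD, S_odd, Real.sin_neg]
  ring

private theorem q_deriv (m : ℕ) (τ η t : ℝ) (hη : 0 ≤ η) (hη1 : η ≤ 1 / 2) :
    HasDerivAt (qD m τ η) (q1D m τ η t) t :=
  (y_deriv τ η t).rpow_const (Or.inl (y_pos τ η t hη hη1).ne')

private theorem q1_cont (m : ℕ) (τ η : ℝ) (hη : 0 ≤ η) (hη1 : η ≤ 1 / 2) :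
    Continuous (q1D m τ η) := by
  have h1 : Continuous fun t => yD τ η t ^ ((m : ℝ)⁻¹ - 1) :=
    (y_cont τ η).rpow_const fun t => Or.inl (y_pos τ η t hη hη1).ne'
  exact ((continuous_const.mul ((Real.continuous_cos.comp (S_cont τ)).mul (w_cont τ))).mul
    continuous_const).mul h1

private theorem inv_bd (m : ℕ) (hm : 1 ≤ m) : 0 < (m : ℝ)⁻¹ ∧ (m : ℝ)⁻¹ ≤ 1 := by
  have h : (1 : ℝ) ≤ m := by exact_mod_cast hm
  exact ⟨by positivity, inv_le_one_of_one_le₀ h⟩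

private theorem q_sub (m : ℕ) (τ η t : ℝ) (hm : 1 ≤ m) (hη : 0 ≤ η) (hη1 : η ≤ 1 / 2) :
    |qD m τ η t - 1| ≤ η := by
  obtain ⟨h1, h2⟩ := y_bd τ η t hη
  obtain ⟨i1, i2⟩ := inv_bd m hm
  have hy := y_pos τ η t hη hη1
  rw [abs_le]
  rcases le_total 1 (yD τ η t) with h | h
  · have a1 : 1 ≤ qD m τ η t := Real.one_le_rpow h i1.le
    have a2 : qD m τ η t ≤ yD τ η t := by
      have := Real.rpow_le_rpow_of_exponent_le h i2
      rwa [Real.rpow_one] at this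
    constructor <;> linarith
  · have a1 : qD m τ η t ≤ 1 := Real.rpow_le_one hy.le h i1.le
    have a2 : yD τ η t ≤ qD m τ η t := by
      have := Real.rpow_le_rpow_of_exponent_ge hy h i2
      rwa [Real.rpow_one] at this
    constructor <;> linarith

private theorem pw_le (m : ℕ) (τ η t : ℝ) (hm : 1 ≤ m) (hη : 0 ≤ η) (hη1 : η ≤ 1 / 2) :
    yD τ η t ^ ((m : ℝ)⁻¹ - 1) ≤ 2 := by
  obtain ⟨h1, h2⟩ := y_bd τ η t hη
  obtain ⟨i1, i2⟩ := inv_bd m hm
  have hy := y_pos τ η t hη hη1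
  rcases le_total 1 (yD τ η t) with h | h
  · have := Real.rpow_le_one_of_one_le_of_nonpos h (by linarith : (m : ℝ)⁻¹ - 1 ≤ 0)
    linarith
  · have h3 := Real.rpow_le_rpow_of_exponent_ge hy h (by linarith : (-1 : ℝ) ≤ (m : ℝ)⁻¹ - 1)
    rw [Real.rpow_neg_one] at h3
    have h4 : (yD τ η t)⁻¹ ≤ 2 := by
      rw [inv_le_comm₀ hy (by norm_num)]
      linarith
    linarith

private theorem q1_le (m : ℕ) (τ η t : ℝ) (hm : 1 ≤ m) (hτ : 0 < τ) (hη : 0 ≤ η)
    (hη1 : η ≤ 1 / 2) (ht : |t| ≤ 1) : |q1D m τ η t| ≤ 2 * η := by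
  obtain ⟨i1, i2⟩ := inv_bd m hm
  have hy := y_pos τ η t hη hη1
  have hp : 0 ≤ yD τ η t ^ ((m : ℝ)⁻¹ - 1) := (Real.rpow_pos_of_pos hy _).le
  have hp2 := pw_le m τ η t hm hη hη1
  have hc := Real.abs_cos_le_one (SD τ t)
  have hw := w_nonneg τ t
  have hw1 := w_le τ t hτ ht
  rw [q1D, abs_mul, abs_mul, abs_mul, abs_mul, abs_of_nonneg hη, abs_of_nonneg hw,
    abs_of_nonneg i1.le, abs_of_nonneg hp]
  have h1 : |Real.cos (SD τ t)| * wD τ t ≤ 1 := by
    calc |Real.cos (SD τ t)| * wD τ t ≤ 1 * 1 :=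
          mul_le_mul hc hw1 hw zero_le_one
      _ = 1 := by norm_num
  have h0 : 0 ≤ |Real.cos (SD τ t)| * wD τ t := mul_nonneg (abs_nonneg _) hw
  have h2 : η * (|Real.cos (SD τ t)| * wD τ t) ≤ η := by nlinarith
  have h3 : 0 ≤ η * (|Real.cos (SD τ t)| * wD τ t) := mul_nonneg hη h0
  have h4 : η * (|Real.cos (SD τ t)| * wD τ t) * (m : ℝ)⁻¹ ≤ η := by nlinarith
  have h5 : 0 ≤ η * (|Real.cos (SD τ t)| * wD τ t) * (m : ℝ)⁻¹ := mul_nonneg h3 i1.le
  calc η * (|Real.cos (SD τ t)| * wD τ t) * (m : ℝ)⁻¹ * yD τ η t ^ ((m : ℝ)⁻¹ - 1)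
      ≤ η * 2 := mul_le_mul h4 hp2 hp hη
    _ = 2 * η := by ring

private theorem q1_flat (m : ℕ) (τ η t : ℝ) (h : |t| ≤ τ) : q1D m τ η t = 0 := by
  rw [q1D, w_flat τ t h, mul_zero, mul_zero, zero_mul, zero_mul]

private theorem r_flat (m : ℕ) (τ η t : ℝ) (h : |t| ≤ τ) : rD m τ η t = 0 := by
  rw [rD, q1_flat m τ η t h, neg_zero, zero_mul]

private theorem max_pos (τ t : ℝ) (hτ : 0 < τ) : 0 < max (t ^ 2) (τ ^ 2) :=
  lt_max_of_lt_right (by positivity)

private theorem r_cont (m : ℕ) (τ η : ℝ) (hτ : 0 < τ) (hη : 0 ≤ η) (hη1 : η ≤ 1 / 2) :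
    Continuous (rD m τ η) := by
  refine (q1_cont m τ η hη hη1).neg.mul (continuous_id.div ?_ fun t => (max_pos τ t hτ).ne')
  exact (continuous_id.pow 2).max continuous_const

private theorem r_eq (m : ℕ) (τ η t : ℝ) (hτ : 0 < τ) : t * rD m τ η t = -q1D m τ η t := by
  rcases le_total |t| τ with h | h
  · rw [r_flat m τ η t h, q1_flat m τ η t h, mul_zero, neg_zero]
  · have h1 : τ ^ 2 ≤ t ^ 2 := by
      rw [← sq_abs t]
      exact pow_le_pow_left₀ hτ.le h 2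
    have h2 : t ^ 2 ≠ 0 := (lt_of_lt_of_le (by positivity) h1).ne'
    have h3 : t ≠ 0 := fun h0 => h2 (by rw [h0]; ring)
    rw [rD, max_eq_left h1]
    field_simp

private theorem quot_le (τ t : ℝ) (hτ : 0 < τ) : |t / max (t ^ 2) (τ ^ 2)| ≤ 1 / τ := by
  rw [abs_div, abs_of_pos (max_pos τ t hτ), div_le_div_iff₀ (max_pos τ t hτ) hτ, one_mul]
  rcases le_total |t| τ with h | h
  · exact le_trans (by nlinarith [abs_nonneg t]) (le_max_right _ _)
  · refine le_trans ?_ (le_max_left _ _)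
    rw [← sq_abs t]
    nlinarith [abs_nonneg t]

private theorem r_le (m : ℕ) (τ η t : ℝ) (hm : 1 ≤ m) (hτ : 0 < τ) (hη : 0 ≤ η)
    (hη1 : η ≤ 1 / 2) (ht : |t| ≤ 1) : |rD m τ η t| ≤ 2 * η / τ := by
  rw [rD, abs_mul, abs_neg]
  calc |q1D m τ η t| * |t / max (t ^ 2) (τ ^ 2)| ≤ 2 * η * (1 / τ) :=
        mul_le_mul (q1_le m τ η t hm hτ hη hη1 ht) (quot_le τ t hτ) (abs_nonneg _) (by linarith)
    _ = 2 * η / τ := by ring

private theorem p_flat (m : ℕ) (τ η t : ℝ) (h : |t| ≤ τ) : pD m τ η t = 0 := by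
  rw [pD]
  have h1 : (∫ s in (0 : ℝ)..t, rD m τ η s) = ∫ s in (0 : ℝ)..t, (0 : ℝ) :=
    intervalIntegral.integral_congr fun x hx => r_flat m τ η x ((abs_le_of_mem t x hx).trans h)
  rw [h1, intervalIntegral.integral_zero]

private theorem p_le (m : ℕ) (τ η t : ℝ) (hm : 1 ≤ m) (hτ : 0 < τ) (hη : 0 ≤ η)
    (hη1 : η ≤ 1 / 2) (ht : |t| ≤ 1) : |pD m τ η t| ≤ 2 * η / τ := by
  have h := intervalIntegral.norm_integral_le_of_norm_le_const (a := 0) (b := t)
    (C := 2 * η / τ) (f := rD m τ η) (fun x hx => ?_)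
  · rw [sub_zero] at h
    refine le_trans h ?_
    have h1 : 0 ≤ 2 * η / τ := by positivity
    nlinarith [abs_nonneg t]
  · rw [Real.norm_eq_abs]
    exact r_le m τ η x hm hτ hη hη1
      ((abs_le_of_mem t x (Set.uIoc_subset_uIcc hx)).trans ht)

/-- DAT. -/
theorem hDat : StDat := by
  intro m τ ε hm hτ hτ1 hε
  obtain ⟨μ, hμ⟩ : ∃ μ, μ = min 1 ε := ⟨_, rfl⟩
  have hμ0 : 0 < μ := by rw [hμ]; exact lt_min one_pos hε
  have hμ1 : μ ≤ 1 := by rw [hμ]; exact min_le_left _ _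
  have hμε : μ ≤ ε := by rw [hμ]; exact min_le_right _ _
  obtain ⟨η, hηd⟩ : ∃ η, η = τ * μ / 16 := ⟨_, rfl⟩
  have hη0 : 0 < η := by rw [hηd]; positivity
  have hη2 : 2 * η / τ = μ / 8 := by
    rw [hηd]
    field_simp
    ring
  have hη3 : η ≤ μ / 16 := by
    rw [hηd]
    nlinarith
  have hη1 : η ≤ 1 / 2 := by linarith
  have habs : ∀ t : ℝ, t ^ 2 ≤ 1 → |t| ≤ 1 := fun t ht => by
    rwa [sq_le_one_iff_abs_le_one] at ht
  refine ⟨qD m τ η, q1D m τ η, pD m τ η, rD m τ η, ?_⟩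
  have hcr := r_cont m τ η hτ hη0.le hη1
  refine
    { hq := fun t => q_deriv m τ η t hη0.le hη1
      hp := fun t => (hcr.integral_hasStrictDerivAt 0 t).hasDerivAt
      hr := fun t => r_eq m τ η t hτ
      cr := hcr
      pos := fun t => Real.rpow_pos_of_pos (y_pos τ η t hη0.le hη1) _
      cvx := ?_
      sym := ?_
      r0 := r_flat m τ η 0 (by rw [abs_zero]; exact hτ.le)
      flq := ?_
      flp := fun t ht => p_flat m τ η t ht
      nt := ?_
      sm := ?_ }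
  · intro t ht
    have h1 := abs_le.1 (q_sub m τ η t hm hη0.le hη1)
    have h2 := abs_le.1 (r_le m τ η t hm hτ hη0.le hη1 (habs t ht))
    rw [hη2] at h2
    have h3 : 0 ≤ t ^ 2 := sq_nonneg t
    nlinarith [h1.1, h2.1, h2.2]
  · intro t
    have hm0 : m ≠ 0 := by omega
    have h1 : ∀ t, qD m τ η t ^ m = yD τ η t := fun t =>
      Real.rpow_inv_natCast_pow (y_pos τ η t hη0.le hη1).le hm0
    rw [h1, h1, y_odd]
    ring
  · intro t ht
    rw [qD, y_flat τ η t ht, Real.one_rpow]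
  · refine ⟨1, by norm_num, ?_⟩
    have hs : 0 < Real.sin (SD τ 1) :=
      Real.sin_pos_of_pos_of_lt_pi (S_one_pos τ hτ hτ1)
        (lt_of_le_of_lt (S_one_le τ hτ) (by linarith [Real.pi_gt_three]))
    have hy : 1 < yD τ η 1 := by
      have := mul_pos hη0 hs
      unfold yD
      linarith
    exact (Real.one_lt_rpow hy (inv_bd m hm).1).ne'
  · intro t ht
    refine ⟨(q_sub m τ η t hm hη0.le hη1).trans (by linarith), ?_⟩
    refine (p_le m τ η t hm hτ hη0.le hη1 (habs t ht)).trans ?_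
    rw [hη2]
    linarith

end Pool.Agent.Helper22.TB
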